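import Pool.Agent.H40.Zr14

set_option autoImplicit false

namespace Pool.Agent.Results.MP_1454e8_lc.Model

open Pool.Agent.H40.Bspt Pool.Agent.H40.Jz

theorem result : ∃ (M : Type) (E : M → M → Prop) (ν : ℕ → M), IsZF E ∧ Numer E ν ∧
    Nonempty (Reals E) ∧ ∀ ℛ : Reals E,
      (∀ X T, IsTop E X T → Compact E X T → Metrizable ℛ X T → Separable E X T) ∧
      ¬ SeqProd E (fun X T => Compact E X T ∧ Metrizable ℛ X T) (Separable E) :=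
  let ⟨M, E, Q, S⟩ := Pool.Agent.H40.Gn.ex_vm
  ⟨M, E, Q.ν, Q.zf, Q.num, ⟨Q.reals⟩, fun ℛ => ⟨S.sep Q.zf ℛ, S.nsep Q.zf ℛ⟩⟩

end Pool.Agent.Results.MP_1454e8_lc.Model
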